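import Pool.Agent.DQ2.Stmts

/-!
# DQ2, row CRT (uses NAT TRP SPC NUM): the genericity conditions hold at `(s^k, 1, 0, ..)`
-/

set_option autoImplicit false

open MvPolynomial

namespace Pool.Agent.DQ2.H61

theorem map_pt {R S : Type} [CommRing R] [CommRing S] (φ : R →+* S) (N : ℕ) (s : R) :
    (fun j => φ (pt N s j)) = pt N (φ s) := by
  funext j
  unfold pt
  split_ifs
  · rfl
  · exact map_one φ
  · exact map_zero φ

theorem map_ee {R S : Type} [CommRing R] [CommRing S] (φ : R →+* S) (N i : ℕ) :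
    (fun j => φ (ee N R i j)) = ee N S i := by
  funext j
  unfold ee
  split_ifs
  · exact map_one φ
  · exact map_zero φ

theorem map_ee2 {R S : Type} [CommRing R] [CommRing S] (φ : R →+* S) (N i i' : ℕ) :
    (fun j => φ (ee N R i j + ee N R i' j)) = fun j => ee N S i j + ee N S i' j := by
  funext j
  rw [map_add]
  exact congrArg₂ (· + ·) (congrFun (map_ee φ N i) j) (congrFun (map_ee φ N i') j)

/-- value of the polynomial `fk` under a ring homomorphism -/
theorem hom_fk {n d k : ℕ} {S : Type} [CommRing S] (ψ : Polynomial (LDP.AA n d) →+* S) :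
    ψ (fk n d k) = eval (pt (n + 2) (ψ Polynomial.X ^ k)) (map (ψ.comp Polynomial.C) (LDP.FA n d)) := by
  unfold fk
  rw [← MvPolynomial.map_map, ← map_pow, ← map_pt ψ, MvPolynomial.eval_map, MvPolynomial.eval_map]
  rw [MvPolynomial.eval₂_comp_left]
  rw [MvPolynomial.eval₂_map]
  rfl

/-- value of `lf` of the universal form under a ring homomorphism -/
theorem hom_lf (hNAT : NAT) {n d k : ℕ} {S : Type} [CommRing S]
    (ψ : Polynomial (LDP.AA n d) →+* S) :
    ψ (lf (map (Polynomial.C : LDP.AA n d →+* Polynomial (LDP.AA n d)) (LDP.FA n d))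
      (pt (n + 2) (Polynomial.X ^ k)) (ee (n + 2) _ 0)) =
    lf (map (ψ.comp Polynomial.C) (LDP.FA n d)) (pt (n + 2) (ψ Polynomial.X ^ k))
      (ee (n + 2) S 0) := by
  rw [(hNAT _ S ψ (n + 2) _).1, MvPolynomial.map_map, map_pt, map_ee, map_pow]

/-- value of `crit` of the universal form under a ring homomorphism -/
theorem hom_crit (hNAT : NAT) {n d k : ℕ} {S : Type} [CommRing S]
    (ψ : Polynomial (LDP.AA n d) →+* S) :
    ψ (crit (map (Polynomial.C : LDP.AA n d →+* Polynomial (LDP.AA n d)) (LDP.FA n d))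
      (pt (n + 2) (Polynomial.X ^ k)) (fun j => ee (n + 2) _ 2 j + ee (n + 2) _ 3 j)
      (ee (n + 2) _ 3) (ee (n + 2) _ 1)) =
    crit (map (ψ.comp Polynomial.C) (LDP.FA n d)) (pt (n + 2) (ψ Polynomial.X ^ k))
      (fun j => ee (n + 2) S 2 j + ee (n + 2) S 3 j) (ee (n + 2) S 3) (ee (n + 2) S 1) := by
  rw [(hNAT _ S ψ (n + 2) _).2.2.2.2, MvPolynomial.map_map, map_pt, map_ee2, map_ee, map_ee,
    map_pow]

/-- transfer from `ℂ`: if `P` (over `AA[X]`) has nonzero value under one specialisation `φ` of the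
universal form with `F(0, 1, 0, ..) = 0`, then its value at `s` is not zero -/
theorem transfer (hTRP : TRP) {n d k : ℕ} (hd : 1 ≤ d) (hk : 1 ≤ k)
    (P : Polynomial (LDP.AA n d)) (φ : LDP.AA n d →+* ℂ)
    (h0 : eval (pt (n + 2) (0 : ℂ)) (map φ (LDP.FA n d)) = 0)
    (hP : Polynomial.eval₂RingHom φ (0 : ℂ) P ≠ 0)
    (E : Type) [Field E] [Algebra (LDP.KK n d) E] (s : E)
    (hs : Polynomial.aeval s (fK n d k) = 0) :
    Polynomial.eval₂RingHom ((algebraMap (LDP.KK n d) E).comp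
      (algebraMap (LDP.AA n d) (LDP.KK n d))) s P ≠ 0 := by
  have hψ : (Polynomial.eval₂RingHom φ (0 : ℂ)).comp Polynomial.C = φ := by
    ext a
    · simp
    · simp
  have h1 : Polynomial.eval₂ φ (0 : ℂ) (fk n d k) = 0 := by
    have h := hom_fk (n := n) (d := d) (k := k) (Polynomial.eval₂RingHom φ (0 : ℂ))
    rw [hψ, Polynomial.coe_eval₂RingHom, Polynomial.eval₂_X, zero_pow (by omega : k ≠ 0), h0] at h
    exact h
  have h2 := hTRP n d k hd hk P φ 0 h1 hP E s hs
  rw [Polynomial.aeval_def, Polynomial.eval₂_map] at h2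
  exact h2

theorem comp_C_eq {n d : ℕ} {E : Type} [Field E] [Algebra (LDP.KK n d) E] (s : E) :
    map ((Polynomial.eval₂RingHom ((algebraMap (LDP.KK n d) E).comp
      (algebraMap (LDP.AA n d) (LDP.KK n d))) s).comp Polynomial.C) (LDP.FA n d) =
    map (algebraMap (LDP.KK n d) E) (LDP.FK n d) := by
  have hψ : (Polynomial.eval₂RingHom ((algebraMap (LDP.KK n d) E).comp
      (algebraMap (LDP.AA n d) (LDP.KK n d))) s).comp Polynomial.C =
      (algebraMap (LDP.KK n d) E).comp (algebraMap (LDP.AA n d) (LDP.KK n d)) := by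
    apply RingHom.ext
    intro a
    rw [RingHom.comp_apply, Polynomial.coe_eval₂RingHom, Polynomial.eval₂_C]
  rw [hψ, LDP.FK, MvPolynomial.map_map]

/-- the example for `d = 2` -/
noncomputable def F2 (n : ℕ) : MvPolynomial (Fin (n + 2)) ℂ :=
  X ⟨0, by omega⟩ ^ 2 + X ⟨0, by omega⟩ * X ⟨1, by omega⟩

theorem F2_hom (n : ℕ) : (F2 n).IsHomogeneous 2 := by
  unfold F2
  exact (isHomogeneous_X_pow _ 2).add ((isHomogeneous_X ℂ _).mul (isHomogeneous_X ℂ _))

theorem F2_coeff (n : ℕ) : coeff (Finsupp.single 0 2) (F2 n) = 1 := by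
  unfold F2
  rw [coeff_add]
  have h1 : coeff (Finsupp.single (0 : Fin (n + 2)) 2)
      ((X ⟨0, by omega⟩ : MvPolynomial (Fin (n + 2)) ℂ) ^ 2) = 1 := by
    rw [X_pow_eq_monomial, coeff_monomial]
    exact if_pos rfl
  have h2 : coeff (Finsupp.single (0 : Fin (n + 2)) 2)
      ((X ⟨0, by omega⟩ : MvPolynomial (Fin (n + 2)) ℂ) * X ⟨1, by omega⟩) = 0 := by
    rw [coeff_mul_X']
    rw [if_neg]
    intro h
    rw [Finsupp.mem_support_iff, Finsupp.single_apply] at h
    apply h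
    rw [if_neg]
    intro h'
    have := congrArg Fin.val h'
    simp at this
  rw [h1, h2, add_zero]

theorem F2_eval (n : ℕ) : eval (pt (n + 2) (0 : ℂ)) (F2 n) = 0 := by
  unfold F2 pt
  simp

theorem F2_lf (n : ℕ) : lf (F2 n) (pt (n + 2) (0 : ℂ)) (ee (n + 2) ℂ 0) ≠ 0 := by
  unfold lf F2 ee pt
  rw [Finset.sum_eq_single (⟨0, by omega⟩ : Fin (n + 2))]
  · simp [pderiv_X]
  · intro b _ hb
    have : b.1 ≠ 0 := fun h => hb (Fin.ext h)
    rw [if_neg this, mul_zero]
  · intro h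
    exact absurd (Finset.mem_univ _) h

/-- Row CRT -/
theorem crt (hNAT : NAT) (hTRP : TRP) (hSPC : SPC) (hNUM : NUM) : CRT := by
  intro n k hn hk
  refine ⟨?_, ?_⟩
  · intro E _ _ s hs
    obtain ⟨φ, hφ⟩ := hSPC n 2 (F2 n) (F2_hom n) (F2_coeff n)
    have hψ : (Polynomial.eval₂RingHom φ (0 : ℂ)).comp Polynomial.C = φ := by
      ext a
      · simp
      · simp
    have h := transfer hTRP (by norm_num) hk
      (lf (map (Polynomial.C : LDP.AA n 2 →+* Polynomial (LDP.AA n 2)) (LDP.FA n 2))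
        (pt (n + 2) (Polynomial.X ^ k)) (ee (n + 2) _ 0)) φ
      (by rw [hφ]; exact F2_eval n)
      (by
        rw [hom_lf hNAT, hψ, hφ, Polynomial.coe_eval₂RingHom, Polynomial.eval₂_X,
          zero_pow (by omega : k ≠ 0)]
        exact F2_lf n) E s hs
    rw [hom_lf hNAT, comp_C_eq, Polynomial.coe_eval₂RingHom, Polynomial.eval₂_X] at h
    exact h
  · intro E _ _ s hs
    obtain ⟨hH, hc, he, hcr⟩ := hNUM n hn
    obtain ⟨φ, hφ⟩ := hSPC n 3 (F3 n hn) hH hc
    have hψ : (Polynomial.eval₂RingHom φ (0 : ℂ)).comp Polynomial.C = φ := by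
      ext a
      · simp
      · simp
    have h := transfer hTRP (by norm_num) hk
      (crit (map (Polynomial.C : LDP.AA n 3 →+* Polynomial (LDP.AA n 3)) (LDP.FA n 3))
        (pt (n + 2) (Polynomial.X ^ k)) (fun j => ee (n + 2) _ 2 j + ee (n + 2) _ 3 j)
        (ee (n + 2) _ 3) (ee (n + 2) _ 1)) φ
      (by rw [hφ]; exact he)
      (by
        rw [hom_crit hNAT, hψ, hφ, Polynomial.coe_eval₂RingHom, Polynomial.eval₂_X,
          zero_pow (by omega : k ≠ 0)]
        exact hcr) E s hs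
    rw [hom_crit hNAT, comp_C_eq, Polynomial.coe_eval₂RingHom, Polynomial.eval₂_X] at h
    exact h

end Pool.Agent.DQ2.H61
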